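import Mathlib

set_option autoImplicit false

/-! Integral unitriangular matrices: nilpotency and the entry homomorphisms. -/

namespace Pool.Agent.N151.RFC



abbrev MZ (n : ℕ) := Matrix (Fin n) (Fin n) ℤ

/-- the band filtration of the ring of integral `n × n` matrices -/
def J (n d : ℕ) : AddSubgroup (MZ n) where
  carrier := {M | ∀ a b : Fin n, (b : ℕ) < a + d → M a b = 0}
  zero_mem' := fun _ _ _ => rfl
  add_mem' := by
    intro M M' h h' a b hab
    rw [Matrix.add_apply, h a b hab, h' a b hab, add_zero]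
  neg_mem' := by
    intro M h a b hab
    rw [Matrix.neg_apply, h a b hab, neg_zero]

lemma mem_J {n d : ℕ} {M : MZ n} : M ∈ J n d ↔ ∀ a b : Fin n, (b : ℕ) < a + d → M a b = 0 :=
  Iff.rfl

lemma J_mul {n d e : ℕ} {M M' : MZ n} (h : M ∈ J n d) (h' : M' ∈ J n e) :
    M * M' ∈ J n (d + e) := by
  intro a b hab
  rw [Matrix.mul_apply]
  apply Finset.sum_eq_zero
  intro c _
  by_cases hc : (c : ℕ) < a + d
  · rw [h a c hc, zero_mul]
  · rw [h' c b (by omega), mul_zero]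

lemma J_mono {n d e : ℕ} (hde : d ≤ e) {M : MZ n} (h : M ∈ J n e) : M ∈ J n d :=
  fun a b hab => h a b (by omega)

lemma one_mem_J (n : ℕ) : (1 : MZ n) ∈ J n 0 := by
  intro a b hab
  rw [Matrix.one_apply_ne]
  rintro rfl
  omega

lemma eq_zero_of_mem_J {n d : ℕ} (hd : n ≤ d) {M : MZ n} (h : M ∈ J n d) : M = 0 := by
  ext a b
  exact h a b (by omega)

/-- units congruent to `1` modulo `J d` -/
def UJ (n d : ℕ) (hd : 1 ≤ d) : Subgroup (MZ n)ˣ where
  carrier := {g | (g : MZ n) - 1 ∈ J n d ∧ ((g⁻¹ : (MZ n)ˣ) : MZ n) - 1 ∈ J n d}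
  one_mem' := by simp [(J n d).zero_mem]
  mul_mem' := by
    have key : ∀ x y : MZ n, x - 1 ∈ J n d → y - 1 ∈ J n d → x * y - 1 ∈ J n d := by
      intro x y hx hy
      have : x * y - 1 = (x - 1) * (y - 1) + (x - 1) + (y - 1) := by noncomm_ring
      rw [this]
      exact (J n d).add_mem ((J n d).add_mem (J_mono (by omega) (J_mul hx hy)) hx) hy
    intro g g' hg hg'
    refine ⟨?_, ?_⟩
    · rw [Units.val_mul]
      exact key _ _ hg.1 hg'.1
    · rw [mul_inv_rev, Units.val_mul]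
      exact key _ _ hg'.2 hg.2
  inv_mem' := by
    intro g hg
    refine ⟨hg.2, ?_⟩
    rw [inv_inv]
    exact hg.1

/-- the group of integral unitriangular matrices -/
abbrev U (n : ℕ) := ↥(UJ n 1 le_rfl)

lemma mem_J_zero_of_sub {n d : ℕ} {x : MZ n} (h : x - 1 ∈ J n d) : x ∈ J n 0 := by
  have : x = (x - 1) + 1 := by noncomm_ring
  rw [this]
  exact (J n 0).add_mem (J_mono (by omega) h) (one_mem_J n)

lemma comm_mem {n d : ℕ} (hd : 1 ≤ d) {x y : (MZ n)ˣ} (hx : x ∈ UJ n d hd) (hy : y ∈ UJ n 1 le_rfl) :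
    x * y * x⁻¹ * y⁻¹ ∈ UJ n (d + 1) (by omega) := by
  have h1 : ((x : MZ n) * y - y * x) ∈ J n (d + 1) := by
    have : ((x : MZ n) * y - y * x) = ((x : MZ n) - 1) * ((y : MZ n) - 1)
        - ((y : MZ n) - 1) * ((x : MZ n) - 1) := by noncomm_ring
    rw [this]
    refine (J n (d+1)).sub_mem (J_mul hx.1 hy.1) ?_
    have := J_mul hy.1 hx.1
    rwa [add_comm] at this
  constructor
  · have e : ((x * y * x⁻¹ * y⁻¹ : (MZ n)ˣ) : MZ n) - 1
        = ((x : MZ n) * y - y * x) * (((x⁻¹ : (MZ n)ˣ) : MZ n) * ((y⁻¹ : (MZ n)ˣ) : MZ n)) := by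
      have h2 : (y : MZ n) * x * (((x⁻¹ : (MZ n)ˣ) : MZ n) * ((y⁻¹ : (MZ n)ˣ) : MZ n)) = 1 := by
        rw [mul_assoc, ← mul_assoc (x : MZ n), Units.mul_inv, one_mul, Units.mul_inv]
      rw [sub_mul, h2]
      simp only [Units.val_mul, mul_assoc]
    rw [e]
    have := J_mul h1 (J_mul (mem_J_zero_of_sub hx.2) (mem_J_zero_of_sub hy.2))
    simpa using this
  · have e : (((x * y * x⁻¹ * y⁻¹)⁻¹ : (MZ n)ˣ) : MZ n) - 1
        = -((x : MZ n) * y - y * x) * (((y⁻¹ : (MZ n)ˣ) : MZ n) * ((x⁻¹ : (MZ n)ˣ) : MZ n)) := by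
      have h2 : (x : MZ n) * y * (((y⁻¹ : (MZ n)ˣ) : MZ n) * ((x⁻¹ : (MZ n)ˣ) : MZ n)) = 1 := by
        rw [mul_assoc, ← mul_assoc (y : MZ n), Units.mul_inv, one_mul, Units.mul_inv]
      rw [neg_sub, sub_mul, h2]
      simp only [mul_inv_rev, inv_inv, Units.val_mul, mul_assoc]
    rw [e]
    have := J_mul ((J n (d+1)).neg_mem h1) (J_mul (mem_J_zero_of_sub hy.2) (mem_J_zero_of_sub hx.2))
    simpa using this

instance (n : ℕ) : Group.IsNilpotent (U n) := by
  rw [Subgroup.nilpotent_iff_finite_descending_central_series]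
  refine ⟨n, fun d => (UJ n (d + 1) (by omega)).subgroupOf (UJ n 1 le_rfl), ⟨?_, ?_⟩, ?_⟩
  · exact Subgroup.subgroupOf_self _
  · intro x d hx g
    rw [Subgroup.mem_subgroupOf] at hx ⊢
    exact comm_mem (by omega) hx g.2
  · rw [eq_bot_iff]
    intro x hx
    rw [Subgroup.mem_subgroupOf] at hx
    have h := eq_zero_of_mem_J (by omega) hx.1
    rw [Subgroup.mem_bot]
    apply Subtype.ext
    apply Units.ext
    exact sub_eq_zero.mp h

lemma entry_mul {n d : ℕ} (hd : 1 ≤ d) {x y : MZ n} (hx : x - 1 ∈ J n d) (hy : y - 1 ∈ J n d)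
    (r c : Fin n) (hrc : (c : ℕ) = r + d) : (x * y) r c = x r c + y r c := by
  have hne : r ≠ c := by
    rintro rfl
    omega
  have h := J_mul hx hy r c (by omega)
  have e : (x - 1) * (y - 1) = x * y - x - y + 1 := by noncomm_ring
  rw [e, Matrix.add_apply, Matrix.sub_apply, Matrix.sub_apply, Matrix.one_apply_ne hne] at h
  linarith

lemma entry_one {n d : ℕ} (hd : 1 ≤ d) (r c : Fin n) (hrc : (c : ℕ) = r + d) :
    (1 : MZ n) r c = 0 := by
  rw [Matrix.one_apply_ne]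
  rintro rfl
  omega

/-- the entry at distance `d` is additive on `UJ n d` -/
def entryHom {n d : ℕ} (hd : 1 ≤ d) (r c : Fin n) (hrc : (c : ℕ) = r + d) :
    ↥(UJ n d hd) →* Multiplicative ℤ where
  toFun g := Multiplicative.ofAdd (((g : (MZ n)ˣ) : MZ n) r c)
  map_one' := by
    show Multiplicative.ofAdd ((1 : MZ n) r c) = 1
    rw [entry_one hd r c hrc, ofAdd_zero]
  map_mul' := by
    intro g g'
    rw [← ofAdd_add]
    congr 1
    exact entry_mul hd g.2.1 g'.2.1 r c hrc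

/-- Every nontrivial unitriangular matrix has an entry which is additive on its powers. -/
lemma exists_entry {n : ℕ} (A : U n) (hA : A ≠ 1) :
    ∃ r c : Fin n, (((A : (MZ n)ˣ) : MZ n) r c ≠ 0) ∧
      ∀ j : ℤ, (((A ^ j : U n) : (MZ n)ˣ) : MZ n) r c = j * ((A : (MZ n)ˣ) : MZ n) r c := by
  classical
  have hex : ∃ d : ℕ, ∃ r c : Fin n, (c : ℕ) = r + d ∧ (((A : (MZ n)ˣ) : MZ n) - 1) r c ≠ 0 := by
    by_contra hcon
    push Not at hcon
    apply hA
    apply Subtype.ext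
    apply Units.ext
    rw [← sub_eq_zero]
    ext a b
    by_cases hab : (b : ℕ) < a + 1
    · exact A.2.1 a b hab
    · exact hcon (b - a) a b (by omega)
  let d := Nat.find hex
  obtain ⟨r, c, hrc, hne⟩ := Nat.find_spec hex
  have hmin : ∀ e < d, ∀ r c : Fin n, (c : ℕ) = r + e → (((A : (MZ n)ˣ) : MZ n) - 1) r c = 0 := by
    intro e he r c hrc
    by_contra h
    exact Nat.find_min hex he ⟨r, c, hrc, h⟩
  have hd : 1 ≤ d := by
    by_contra hd0
    have hd0 : Nat.find hex = 0 := by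
      change ¬ 1 ≤ Nat.find hex at hd0
      omega
    exact hne (A.2.1 r c (by omega))
  have hAJ : ((A : (MZ n)ˣ) : MZ n) - 1 ∈ J n d := by
    intro a b hab
    by_cases h : (b : ℕ) < a
    · exact A.2.1 a b (by omega)
    · exact hmin (b - a) (by omega) a b (by omega)
  have hinv : (((A : (MZ n)ˣ)⁻¹ : (MZ n)ˣ) : MZ n) - 1 ∈ J n d := by
    have e : (((A : (MZ n)ˣ)⁻¹ : (MZ n)ˣ) : MZ n) - 1
        = -((((A : (MZ n)ˣ)⁻¹ : (MZ n)ˣ) : MZ n) * (((A : (MZ n)ˣ) : MZ n) - 1)) := by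
      rw [mul_sub, Units.inv_mul, mul_one]; noncomm_ring
    rw [e]
    refine (J n d).neg_mem ?_
    have := J_mul (mem_J_zero_of_sub A.2.2) hAJ
    simpa using this
  have hmem : (A : (MZ n)ˣ) ∈ UJ n d hd := ⟨hAJ, hinv⟩
  have hrne : r ≠ c := by
    rintro rfl
    change (r : ℕ) = r + d at hrc
    omega
  refine ⟨r, c, ?_, ?_⟩
  · intro h
    apply hne
    rw [Matrix.sub_apply, h, Matrix.one_apply_ne hrne, sub_zero]
  · intro j
    have h1 := map_zpow (entryHom hd r c hrc) ⟨(A : (MZ n)ˣ), hmem⟩ j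
    have h2 := congrArg Multiplicative.toAdd h1
    rw [toAdd_zpow] at h2
    exact h2

/-- the finite group of invertible matrices modulo `M` -/
abbrev UM (n M : ℕ) : Type := (Matrix (Fin n) (Fin n) (ZMod M))ˣ

instance (n M : ℕ) [NeZero M] : Finite (UM n M) :=
  haveI : Finite (Matrix (Fin n) (Fin n) (ZMod M)) := Pi.finite
  inferInstanceAs (Finite (Matrix (Fin n) (Fin n) (ZMod M))ˣ)

/-- reduction modulo `M` -/
def red (n M : ℕ) : U n →* UM n M :=
  (Units.map (RingHom.mapMatrix (Int.castRingHom (ZMod M)) :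
    MZ n →+* Matrix (Fin n) (Fin n) (ZMod M)).toMonoidHom).comp (UJ n 1 le_rfl).subtype

lemma red_apply (n M : ℕ) (g : U n) (a b : Fin n) :
    (red n M g : Matrix (Fin n) (Fin n) (ZMod M)) a b = ((((g : (MZ n)ˣ) : MZ n) a b : ℤ) : ZMod M) :=
  rfl

end Pool.Agent.N151.RFC
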