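import Mathlib
import Pool.Agent.N151.RFC.UT

set_option autoImplicit false

/-! A free group is residually a group of integral unitriangular matrices. -/

namespace Pool.Agent.N151.RFC

open Monoid

section

variable {Y : Type*} [DecidableEq Y]

/-- the nilpotent matrix attached to the letter `i` and the sequence `s` -/
def Nm (s : ℕ → Y) (n : ℕ) (i : Y) : MZ n :=
  fun a b => if (b : ℕ) = a + 1 ∧ s a = i then 1 else 0

lemma Nm_mem (s : ℕ → Y) (n : ℕ) (i : Y) : Nm s n i ∈ J n 1 := by
  intro a b hab
  rw [Nm, if_neg]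
  omega

lemma Nm_sq (s : ℕ → Y) (k : ℕ) (hs : ∀ a, a + 1 < k → s a ≠ s (a + 1)) (i : Y) :
    Nm s (k + 1) i * Nm s (k + 1) i = 0 := by
  ext a b
  rw [Matrix.mul_apply, Matrix.zero_apply]
  apply Finset.sum_eq_zero
  intro c _
  rw [Nm, Nm]
  by_cases h1 : (c : ℕ) = a + 1 ∧ s a = i
  · by_cases h2 : (b : ℕ) = c + 1 ∧ s c = i
    · exfalso
      apply hs a (by omega)
      rw [h1.2, ← h1.1, h2.2]
    · rw [if_neg h2, mul_zero]
  · rw [if_neg h1, zero_mul]

lemma sq_aux {n : ℕ} {M : MZ n} (h2 : M * M = 0) (e e' : ℤ) : (e • M) * (e' • M) = 0 := by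
  rw [smul_mul_smul_comm, h2, smul_zero]

/-- the one-parameter group of a square-zero matrix -/
def El {n : ℕ} (M : MZ n) (hM : M ∈ J n 1) (h2 : M * M = 0) : Multiplicative ℤ →* U n where
  toFun e := ⟨⟨1 + (Multiplicative.toAdd e) • M, 1 - (Multiplicative.toAdd e) • M, by
      have h := sq_aux h2 (Multiplicative.toAdd e) (Multiplicative.toAdd e)
      generalize (Multiplicative.toAdd e) • M = A at h
      have : (1 + A) * (1 - A) = 1 - A * A := by noncomm_ring
      rw [this, h, sub_zero], by
      have h := sq_aux h2 (Multiplicative.toAdd e) (Multiplicative.toAdd e)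
      generalize (Multiplicative.toAdd e) • M = A at h
      have : (1 - A) * (1 + A) = 1 - A * A := by noncomm_ring
      rw [this, h, sub_zero]⟩, by
    constructor
    · show (1 + (Multiplicative.toAdd e) • M) - 1 ∈ J n 1
      rw [add_sub_cancel_left]
      exact (J n 1).zsmul_mem hM _
    · show (1 - (Multiplicative.toAdd e) • M) - 1 ∈ J n 1
      have : (1 - (Multiplicative.toAdd e) • M) - 1 = -((Multiplicative.toAdd e) • M) := by
        abel
      rw [this]
      exact (J n 1).neg_mem ((J n 1).zsmul_mem hM _)⟩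
  map_one' := by
    apply Subtype.ext
    apply Units.ext
    show 1 + (0 : ℤ) • M = 1
    rw [zero_smul, add_zero]
  map_mul' := by
    intro e e'
    apply Subtype.ext
    apply Units.ext
    show 1 + (Multiplicative.toAdd e + Multiplicative.toAdd e') • M =
      (1 + (Multiplicative.toAdd e) • M) * (1 + (Multiplicative.toAdd e') • M)
    have h := sq_aux h2 (Multiplicative.toAdd e) (Multiplicative.toAdd e')
    rw [add_smul]
    generalize (Multiplicative.toAdd e) • M = A at h ⊢
    generalize (Multiplicative.toAdd e') • M = B at h ⊢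
    have : (1 + A) * (1 + B) = 1 + (A + B) + A * B := by noncomm_ring
    rw [this, h, add_zero]

/-- the exponent of a syllable -/
def ex (m : FreeGroup Unit) : ℤ := Multiplicative.toAdd (FreeGroup.mulEquivIntOfUnique m)

lemma ex_ne (m : FreeGroup Unit) (hm : m ≠ 1) : ex m ≠ 0 := by
  intro h
  apply hm
  apply (FreeGroup.mulEquivIntOfUnique (α := Unit)).injective
  rw [map_one]
  exact Multiplicative.toAdd.injective h

/-- the product matrix of a list of syllables -/
def mat (s : ℕ → Y) (n : ℕ) (L : List (Σ _ : Y, FreeGroup Unit)) : MZ n :=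
  (L.map (fun l => (1 : MZ n) + ex l.2 • Nm s n l.1)).prod

lemma mat_cons (s : ℕ → Y) (n : ℕ) (l : Σ _ : Y, FreeGroup Unit)
    (L : List (Σ _ : Y, FreeGroup Unit)) :
    mat s n (l :: L) = mat s n L + ex l.2 • (Nm s n l.1 * mat s n L) := by
  rw [mat, List.map_cons, List.prod_cons, add_mul, one_mul, smul_mul_assoc]
  rfl

lemma mat_band (s : ℕ → Y) (n : ℕ) (L : List (Σ _ : Y, FreeGroup Unit)) :
    ∀ a b : Fin n, (a : ℕ) + L.length < b → mat s n L a b = 0 := by
  induction L with
  | nil =>
    intro a b hab
    rw [mat, List.map_nil, List.prod_nil, Matrix.one_apply_ne]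
    rintro rfl
    simp at hab
  | cons l L ih =>
    intro a b hab
    rw [List.length_cons] at hab
    rw [mat_cons, Matrix.add_apply, Matrix.smul_apply, ih a b (by omega), Matrix.mul_apply,
      Finset.sum_eq_zero, smul_zero, add_zero]
    intro c _
    rw [Nm]
    by_cases h : (c : ℕ) = a + 1 ∧ s a = l.1
    · rw [ih c b (by omega), mul_zero]
    · rw [if_neg h, zero_mul]

lemma mat_entry (s : ℕ → Y) (n : ℕ) (L : List (Σ _ : Y, FreeGroup Unit)) :
    ∀ a b : Fin n, (b : ℕ) = a + L.length →
      (∀ j (h : j < L.length), s (a + j) = (L[j]).1) →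
      mat s n L a b = (L.map (fun l => ex l.2)).prod := by
  induction L with
  | nil =>
    intro a b hab _
    have : a = b := Fin.ext (by simpa using hab.symm)
    subst this
    simp [mat]
  | cons l L ih =>
    intro a b hab hs
    rw [List.length_cons] at hab
    have hc : (a : ℕ) + 1 < n := by omega
    rw [mat_cons, Matrix.add_apply, Matrix.smul_apply, mat_band s n L a b (by omega), zero_add,
      Matrix.mul_apply, Finset.sum_eq_single (⟨a + 1, hc⟩ : Fin n)]
    · have h0 := hs 0 (by simp)
      rw [Nm, if_pos ⟨rfl, by simpa using h0⟩, one_mul, ih ⟨a + 1, hc⟩ b (by simp; omega)]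
      · simp
      · intro j hj
        have := hs (j + 1) (by simpa using hj)
        simp only [List.getElem_cons_succ] at this
        rw [← this]
        congr 1
        simp only
        omega
    · intro c _ hne
      rw [Nm, if_neg, zero_mul]
      rintro ⟨h, _⟩
      exact hne (Fin.ext h)
    · intro h
      exact absurd (Finset.mem_univ _) h

end

/-- **A free group is residually unitriangular.** -/
theorem exists_rep {Y : Type*} (u : FreeGroup Y) (hu : u ≠ 1) :
    ∃ n : ℕ, ∃ f : FreeGroup Y →* U n, f u ≠ 1 := by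
  classical
  set W := CoprodI.Word.equiv (freeGroupEquivCoprodI u) with hW
  have hprod : CoprodI.Word.prod W = freeGroupEquivCoprodI u := by
    rw [hW]
    exact CoprodI.Word.equiv.symm_apply_apply _
  have hL : W.toList ≠ [] := by
    intro h
    apply hu
    have h1 : CoprodI.Word.prod W = 1 := by
      rw [CoprodI.Word.prod, h]; simp
    rw [hprod] at h1
    exact freeGroupEquivCoprodI.injective (h1.trans (map_one _).symm)
  set L := W.toList with hLdef
  have hlen : 0 < L.length := List.length_pos_iff.mpr hL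
  let y0 : Y := (L[0]).1
  let s : ℕ → Y := fun a => if h : a < L.length then (L[a]).1 else y0
  have hs : ∀ a, a + 1 < L.length → s a ≠ s (a + 1) := by
    intro a ha
    have h1 := (List.isChain_iff_getElem.mp W.chain_ne) a ha
    simp only [s]
    rw [dif_pos (by omega), dif_pos ha]
    exact h1
  let k := L.length
  let F : ∀ i : Y, FreeGroup Unit →* U (k + 1) := fun i =>
    (El (Nm s (k + 1) i) (Nm_mem s _ i) (Nm_sq s k hs i)).comp
      (FreeGroup.mulEquivIntOfUnique (α := Unit)).toMonoidHom
  let f := (CoprodI.lift F).comp (freeGroupEquivCoprodI (ι := Y)).toMonoidHom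
  refine ⟨k + 1, f, ?_⟩
  intro hone
  have h1 : CoprodI.lift F (CoprodI.Word.prod W) = 1 := by
    rw [hprod]
    exact hone
  rw [CoprodI.Word.prod, map_list_prod, List.map_map] at h1
  have h2 : ∀ L' : List (Σ _ : Y, FreeGroup Unit),
      ((((L'.map ((CoprodI.lift F) ∘ fun l => CoprodI.of (M := fun _ : Y => FreeGroup Unit) (i := l.fst) l.snd)).prod : U (k + 1)) :
        (MZ (k + 1))ˣ) : MZ (k + 1)) = mat s (k + 1) L' := by
    intro L'
    induction L' with
    | nil => simp [mat]
    | cons l L' ih =>
      rw [List.map_cons, List.prod_cons, Subgroup.coe_mul, Units.val_mul, ih, mat, mat,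
        List.map_cons, List.prod_cons]
      congr 1
  have h3 := h2 L
  rw [hLdef, h1, ← hLdef] at h3
  have h4 := mat_entry s (k + 1) L ⟨0, by omega⟩ ⟨k, by omega⟩ (by simp [k]) (by
    intro j hj
    simp only [s, zero_add]
    rw [dif_pos hj])
  rw [← h3] at h4
  have h5 : ((1 : U (k + 1)) : (MZ (k + 1))ˣ) = 1 := rfl
  rw [h5, Units.val_one, Matrix.one_apply_ne (by
    intro h
    have := congrArg Fin.val h
    simp only [k] at this
    omega)] at h4
  have h6 : (L.map (fun l => ex l.2)).prod ≠ 0 := by
    apply List.prod_ne_zero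
    intro h
    rw [List.mem_map] at h
    obtain ⟨l, hl, hl0⟩ := h
    exact ex_ne l.2 (W.ne_one l hl) hl0
  exact h6 h4.symm

end Pool.Agent.N151.RFC
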