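import Mathlib
import Pool.Agent.N151.RFC.Mag

set_option autoImplicit false

namespace Pool.Agent.N151.RFC


/-- `F(Y ∪ {z}) → G`: the letter `z` (that is `none`) goes to `z`, the letters of `Y` to `f` -/
def ev {Y G : Type*} [Group G] (z : G) (f : Y → G) : FreeGroup (Option Y) →* G :=
  FreeGroup.lift (fun o => o.elim z f)

@[simp] lemma ev_none {Y G : Type*} [Group G] (z : G) (f : Y → G) :
    ev z f (FreeGroup.of none) = z := by simp [ev]

@[simp] lemma ev_some {Y G : Type*} [Group G] (z : G) (f : Y → G) (y : Y) :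
    ev z f (FreeGroup.of (some y)) = f y := by simp [ev]

lemma map_ev {Y G K : Type*} [Group G] [Group K] (q : G →* K) (z : G) (f : Y → G)
    (w : FreeGroup (Option Y)) : q (ev z f w) = ev (q z) (fun y => q (f y)) w := by
  have : q.comp (ev z f) = ev (q z) (fun y => q (f y)) := by
    ext o
    cases o with
    | none => simp
    | some y => simp
  exact DFunLike.congr_fun this w

lemma ev_map {Y G : Type*} [Group G] (z : G) (f : Y → G) (r : FreeGroup Y) :
    ev z f (FreeGroup.map some r) = FreeGroup.lift f r := by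
  have : (ev z f).comp (FreeGroup.map some) = FreeGroup.lift f := by
    ext y
    simp
  exact DFunLike.congr_fun this r

/-- the fixed point equation can be solved in nilpotent groups -/
theorem ext_nil {Y : Type*} (r : FreeGroup Y) (w : FreeGroup (Option Y))
    (P : Type*) [Group P] [Group.IsNilpotent P] :
    ∀ f : Y → P, ∃ α : P, ev (α⁻¹ * FreeGroup.lift f r * α) f w = α := by
  refine Group.nilpotent_center_quotient_ind
    (P := fun P _ _ => ∀ f : Y → P, ∃ α : P, ev (α⁻¹ * FreeGroup.lift f r * α) f w = α) P ?_ ?_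
  · intro G _ _ f
    exact ⟨1, Subsingleton.elim _ _⟩
  · intro G _ _ ih f
    let q : G →* G ⧸ Subgroup.center G := QuotientGroup.mk' _
    obtain ⟨β, hβ⟩ := ih (fun y => q (f y))
    obtain ⟨α0, hα0⟩ := QuotientGroup.mk'_surjective (Subgroup.center G) β
    have hlift : q (FreeGroup.lift f r) = FreeGroup.lift (fun y => q (f y)) r := by
      have : q.comp (FreeGroup.lift f) = FreeGroup.lift (fun y => q (f y)) := by
        ext y
        simp
      exact DFunLike.congr_fun this r
    set T : G → G := fun α => ev (α⁻¹ * FreeGroup.lift f r * α) f w with hT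
    have h1 : q (T α0) = q α0 := by
      rw [hT, map_ev, map_mul, map_mul, map_inv, hlift]
      change ev ((q α0)⁻¹ * _ * q α0) _ w = q α0
      rw [show q α0 = β from hα0]
      exact hβ
    have h2 : α0⁻¹ * T α0 ∈ Subgroup.center G := QuotientGroup.eq.mp h1.symm
    refine ⟨T α0, ?_⟩
    have h3 : (T α0)⁻¹ * FreeGroup.lift f r * T α0 = α0⁻¹ * FreeGroup.lift f r * α0 := by
      obtain ⟨c, hc, hc2⟩ : ∃ c : G, c ∈ Subgroup.center G ∧ T α0 = α0 * c :=
        ⟨_, h2, by group⟩
      rw [hc2, mul_inv_rev]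
      have h4 := fun g => Subgroup.mem_center_iff.mp hc g
      have h5 := h4 (α0⁻¹ * FreeGroup.lift f r * α0)
      calc c⁻¹ * α0⁻¹ * FreeGroup.lift f r * (α0 * c)
          = c⁻¹ * ((α0⁻¹ * FreeGroup.lift f r * α0) * c) := by group
        _ = c⁻¹ * (c * (α0⁻¹ * FreeGroup.lift f r * α0)) := by rw [h5]
        _ = _ := by group
    rw [h3]

section

variable {Y : Type*}

/-- the new letter -/
abbrev la (Y : Type*) : FreeGroup (Option Y) := FreeGroup.of none

/-- `r` as an element of `F(Y ∪ {a})` -/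
abbrev Rr (r : FreeGroup Y) : FreeGroup (Option Y) := FreeGroup.map some r

/-- the word `w(a⁻¹ r a, Y)` -/
def Ww (r : FreeGroup Y) (w : FreeGroup (Option Y)) : FreeGroup (Option Y) :=
  ev ((la Y)⁻¹ * Rr r * la Y) (fun y => FreeGroup.of (some y)) w

/-- the word `s = w(a⁻¹ r a, Y) a⁻¹` -/
def Ss (r : FreeGroup Y) (w : FreeGroup (Option Y)) : FreeGroup (Option Y) :=
  Ww r w * (la Y)⁻¹

/-- the one-relator group with relator `s` -/
abbrev HH (r : FreeGroup Y) (w : FreeGroup (Option Y)) : Type _ := PresentedGroup {Ss r w}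

/-- homomorphisms out of `H` -/
lemma hom_H (r : FreeGroup Y) (w : FreeGroup (Option Y)) {G : Type*} [Group G] (f : Y → G) (α : G)
    (h : ev (α⁻¹ * FreeGroup.lift f r * α) f w = α) :
    ∃ φ : HH r w →* G, φ (PresentedGroup.of none) = α ∧ (∀ y, φ (PresentedGroup.of (some y)) = f y) ∧
      (∀ g : FreeGroup Y, φ (PresentedGroup.mk _ (Rr g)) = FreeGroup.lift f g) := by
  have h1 : ∀ g : FreeGroup Y, FreeGroup.lift (fun o : Option Y => o.elim α f) (Rr g)
      = FreeGroup.lift f g := fun g => ev_map α f g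
  have h2 : ∀ x ∈ ({Ss r w} : Set (FreeGroup (Option Y))),
      FreeGroup.lift (fun o : Option Y => o.elim α f) x = 1 := by
    intro x hx
    rw [Set.mem_singleton_iff] at hx
    subst hx
    rw [Ss, map_mul, Ww, map_ev, map_mul, map_mul, map_inv, h1]
    have h3 : FreeGroup.lift (fun o : Option Y => o.elim α f) (la Y) = α := by simp [la]
    have h4 : (fun y => FreeGroup.lift (fun o : Option Y => o.elim α f) (FreeGroup.of (some y))) = f := by
      funext y; simp
    rw [h3, h4, h, mul_inv_cancel]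
  refine ⟨PresentedGroup.toGroup h2, ?_, ?_, ?_⟩
  · rw [PresentedGroup.toGroup.of]; rfl
  · intro y
    rw [PresentedGroup.toGroup.of]; rfl
  · intro g
    rw [← h1 g]
    rfl

/-- finite quotients detect elements of free groups -/
theorem free_res {C : Type*} (g : FreeGroup C) (hg : g ≠ 1) :
    ∃ (T : Type) (_ : Group T) (_ : Finite T) (f : FreeGroup C →* T), f g ≠ 1 := by
  obtain ⟨n, f0, hf0⟩ := exists_rep g hg
  obtain ⟨r, c, hx, hpow⟩ := exists_entry (f0 g) hf0
  set x : ℤ := (((f0 g : U n) : (MZ n)ˣ) : MZ n) r c with hxdef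
  have : NeZero (x.natAbs + 1) := ⟨by omega⟩
  refine ⟨UM n (x.natAbs + 1), inferInstance, inferInstance,
    (red n (x.natAbs + 1)).comp f0, ?_⟩
  intro h
  have h0 : (1 : MZ n) r c = 0 := by
    have := hpow 0
    rw [zpow_zero] at this
    simpa using this
  have h1 : ((red n (x.natAbs + 1) (f0 g) : UM n (x.natAbs + 1)) :
      Matrix (Fin n) (Fin n) (ZMod (x.natAbs + 1))) r c
      = ((1 : UM n (x.natAbs + 1)) : Matrix (Fin n) (Fin n) (ZMod (x.natAbs + 1))) r c := by
    rw [← h]; rfl
  rw [red_apply] at h1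
  have h2 : ((1 : UM n (x.natAbs + 1)) :
      Matrix (Fin n) (Fin n) (ZMod (x.natAbs + 1))) r c = 0 := by
    have hrc : r ≠ c := by
      rintro rfl
      simp at h0
    rw [Units.val_one, Matrix.one_apply_ne hrc]
  rw [h2, ← hxdef, ZMod.intCast_zmod_eq_zero_iff_dvd] at h1
  have h4 := Nat.le_of_dvd (Int.natAbs_pos.mpr hx) (Int.natCast_dvd.mp h1)
  omega

end

end Pool.Agent.N151.RFC
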