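import Mathlib
import Pool.Agent.N151.RFC.Ext

set_option autoImplicit false

namespace Pool.Agent.N151.RFC

/-- Separability criterion: a homomorphism to unitriangular integral matrices not killing `u`. -/
theorem sep_aux {H : Type*} [Group H] (hRF : Group.ResiduallyFinite H) (u : H) {n : ℕ}
    (φ : H →* U n) (hu : φ u ≠ 1) (h : H) (hh : h ∉ Subgroup.zpowers u) :
    ∃ N : Subgroup H, N.Normal ∧ N.FiniteIndex ∧ ∀ j : ℤ, u ^ (-j) * h ∉ N := by
  by_contra hcon
  push Not at hcon
  obtain ⟨r, c, hx, hpow⟩ := exists_entry (φ u) hu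
  set x : ℤ := (((φ u : U n) : (MZ n)ˣ) : MZ n) r c with hxdef
  set θ : ℤ := (((φ h : U n) : (MZ n)ˣ) : MZ n) r c with hθdef
  -- key congruence
  have key : ∀ (M : ℕ) (j : ℤ), red n M (φ (u ^ (-j) * h)) = 1 → (M : ℤ) ∣ (θ - j * x) := by
    intro M j hj
    have h1 : red n M (φ h) = red n M (φ u ^ j) := by
      rw [map_mul, map_zpow, map_mul, zpow_neg, map_inv] at hj
      exact (inv_mul_eq_one.mp hj).symm
    have h2 : ((red n M (φ h) : UM n M) : Matrix (Fin n) (Fin n) (ZMod M)) r c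
        = ((red n M (φ u ^ j) : UM n M) : Matrix (Fin n) (Fin n) (ZMod M)) r c := by rw [h1]
    rw [red_apply, red_apply, hpow j] at h2
    have h3 : ((θ : ℤ) : ZMod M) = ((j * x : ℤ) : ZMod M) := h2
    rw [← ZMod.intCast_zmod_eq_zero_iff_dvd, Int.cast_sub, h3, sub_self]
  have hxpos : 0 < x.natAbs := Int.natAbs_pos.mpr hx
  -- `x ∣ θ`
  have hdiv : x ∣ θ := by
    have : NeZero x.natAbs := ⟨hxpos.ne'⟩
    have hfi : (((red n x.natAbs).comp φ).ker).FiniteIndex := Subgroup.finiteIndex_ker _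
    obtain ⟨j, hj⟩ := hcon _ inferInstance hfi
    have h1 := key x.natAbs j hj
    have h2 : x ∣ (θ - j * x) := Int.natAbs_dvd.mp h1
    have h3 : x ∣ j * x := Dvd.intro_left j rfl
    have := dvd_add h2 h3
    simpa using this
  obtain ⟨lam, hlam⟩ := hdiv
  have hk : u ^ (-lam) * h ≠ 1 := by
    intro h1
    apply hh
    rw [zpow_neg, inv_mul_eq_one] at h1
    exact ⟨lam, h1⟩
  obtain ⟨N0, hN0⟩ := Group.exists_finiteIndexNormalSubgroup_notMem _ hk
  have hn : N0.toSubgroup.Normal := N0.isNormal'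
  have hf : N0.toSubgroup.FiniteIndex := N0.isFiniteIndex'
  have : Finite (H ⧸ N0.toSubgroup) := Subgroup.finite_quotient_of_finiteIndex
  set e : ℕ := orderOf (QuotientGroup.mk' N0.toSubgroup u) with he
  have hepos : 0 < e := orderOf_pos _
  have : NeZero (e * x.natAbs) := ⟨(Nat.mul_pos hepos hxpos).ne'⟩
  have hfi : (((red n (e * x.natAbs)).comp φ).ker).FiniteIndex := Subgroup.finiteIndex_ker _
  obtain ⟨j, hj⟩ := hcon (N0.toSubgroup ⊓ ((red n (e * x.natAbs)).comp φ).ker) inferInstance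
    inferInstance
  have h1 := key (e * x.natAbs) j hj.2
  rw [hlam] at h1
  have h2 : (e : ℤ) ∣ (lam - j) := by
    have h3 : x * lam - j * x = (lam - j) * x := by ring
    rw [h3] at h1
    have h4 : ((e : ℤ) * x) ∣ (lam - j) * x := by
      push_cast at h1
      have h5 : (e : ℤ) * x ∣ (e : ℤ) * |x| := mul_dvd_mul_left _ (self_dvd_abs x)
      exact h5.trans h1
    exact Int.dvd_of_mul_dvd_mul_right hx h4
  apply hN0
  have h6 : u ^ (j - lam) ∈ N0.toSubgroup := by
    rw [← QuotientGroup.eq_one_iff]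
    change QuotientGroup.mk' N0.toSubgroup (u ^ (j - lam)) = 1
    rw [map_zpow, ← orderOf_dvd_iff_zpow_eq_one, ← he]
    have := (dvd_neg (α := ℤ)).mpr h2
    simpa using this
  have h7 : u ^ (-lam) * h = u ^ (j - lam) * (u ^ (-j) * h) := by
    rw [← mul_assoc, ← zpow_add]
    congr 2
    ring
  rw [h7]
  exact N0.toSubgroup.mul_mem h6 hj.1

/-- the element `r` of `H` -/
abbrev uH {Y : Type*} (r : FreeGroup Y) (w : FreeGroup (Option Y)) : HH r w :=
  PresentedGroup.mk _ (Rr r)

/-- **The cyclic subgroup of `H` generated by `r` is separable when `H` is residually finite.** -/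
theorem sep {Y : Type*} (r : FreeGroup Y) (w : FreeGroup (Option Y))
    (hRF : Group.ResiduallyFinite (HH r w)) (h : HH r w)
    (hh : h ∉ Subgroup.zpowers (uH r w)) :
    ∃ N : Subgroup (HH r w), N.Normal ∧ N.FiniteIndex ∧ ∀ j : ℤ, (uH r w) ^ (-j) * h ∉ N := by
  by_cases hr : r = 1
  · subst hr
    have hu : uH (1 : FreeGroup Y) w = 1 := by
      show PresentedGroup.mk _ (FreeGroup.map some (1 : FreeGroup Y)) = 1
      rw [_root_.map_one, _root_.map_one]
    rw [hu] at hh ⊢
    have hne : h ≠ 1 := by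
      rintro rfl
      exact hh (Subgroup.one_mem _)
    obtain ⟨N0, hN0⟩ := Group.exists_finiteIndexNormalSubgroup_notMem _ hne
    refine ⟨N0.toSubgroup, N0.isNormal', N0.isFiniteIndex', ?_⟩
    intro j
    rw [one_zpow, one_mul]
    exact hN0
  · obtain ⟨n, f0, hf0⟩ := exists_rep r hr
    obtain ⟨α, hα⟩ := ext_nil r w (U n) (fun y => f0 (FreeGroup.of y))
    obtain ⟨φ, -, -, hφ⟩ := hom_H r w _ α hα
    refine sep_aux hRF (uH r w) φ ?_ h hh
    rw [hφ r]
    have : FreeGroup.lift (fun y => f0 (FreeGroup.of y)) = f0 := by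
      ext y; simp
    rw [this]
    exact hf0

end Pool.Agent.N151.RFC
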