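import Mathlib
import Pool.Agent.N151.RFC.Sep

set_option autoImplicit false

/-! Residual finiteness of a group generated by `H` and an element `s` centralizing `u`. -/

namespace Pool.Agent.N151.RFC

universe v

section

variable {I H : Type v} [Group I] [Group H] (ι : H →* I) (s : I) (u : H)

/-- value of a list of syllables -/
def pr (L : List (Bool × H)) : I := (L.map (fun p => cond p.1 s s⁻¹ * ι p.2)).prod

lemma pr_nil : pr ι s [] = 1 := rfl

lemma pr_cons (p : Bool × H) (L : List (Bool × H)) :
    pr ι s (p :: L) = cond p.1 s s⁻¹ * ι p.2 * pr ι s L := by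
  rw [pr, List.map_cons, List.prod_cons, pr]

/-- the reducedness condition -/
def Red (L : List (Bool × H)) : Prop :=
  L.IsChain (fun p q => p.2 ∈ Subgroup.zpowers u → p.1 = q.1)

lemma exists_red (hgen : Subgroup.closure (Set.range ι ∪ {s}) = ⊤)
    (hcomm : s * ι u = ι u * s) (g : I) :
    ∃ (h0 : H) (L : List (Bool × H)), Red u L ∧ g = ι h0 * pr ι s L := by
  have hH : ∀ (h : H) (g : I), (∃ (h0 : H) (L : List (Bool × H)), Red u L ∧ g = ι h0 * pr ι s L) →
      ∃ (h0 : H) (L : List (Bool × H)), Red u L ∧ ι h * g = ι h0 * pr ι s L := by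
    rintro h g ⟨h0, L, hL, rfl⟩
    exact ⟨h * h0, L, hL, by rw [map_mul, mul_assoc]⟩
  have hS : ∀ (b : Bool) (g : I),
      (∃ (h0 : H) (L : List (Bool × H)), Red u L ∧ g = ι h0 * pr ι s L) →
      ∃ (h0 : H) (L : List (Bool × H)), Red u L ∧ cond b s s⁻¹ * g = ι h0 * pr ι s L := by
    rintro b g ⟨h0, L, hL, rfl⟩
    cases L with
    | nil =>
      exact ⟨1, [(b, h0)], List.isChain_singleton _, by
        rw [pr_cons, map_one, one_mul, mul_assoc]⟩
    | cons p L =>
      by_cases hc : h0 ∈ Subgroup.zpowers u → b = p.1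
      · refine ⟨1, (b, h0) :: p :: L, ?_, ?_⟩
        · exact List.isChain_cons_cons.mpr ⟨hc, hL⟩
        · rw [pr_cons ι s (b, h0), map_one, one_mul, mul_assoc]
      · push Not at hc
        obtain ⟨⟨k, hk⟩, hb⟩ := hc
        change u ^ k = h0 at hk
        refine ⟨h0 * p.2, L, List.IsChain.tail hL, ?_⟩
        have hcz : Commute s (ι h0) := by
          rw [← hk, map_zpow]
          exact Commute.zpow_right hcomm k
        rw [pr_cons, map_mul]
        rcases p with ⟨b1, h1⟩
        simp only at hb ⊢
        have e : ∀ x : I, cond b s s⁻¹ * (ι h0 * (cond b1 s s⁻¹ * ι h1 * x))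
            = ι h0 * ι h1 * x := by
          intro x
          cases b <;> cases b1
          · exact absurd rfl hb
          · simp only [cond_false, cond_true]
            rw [mul_assoc s, ← mul_assoc (ι h0) s, ← hcz.eq, mul_assoc s, inv_mul_cancel_left,
              mul_assoc]
          · simp only [cond_false, cond_true]
            rw [mul_assoc s⁻¹, ← mul_assoc (ι h0) s⁻¹, ← (hcz.inv_left).eq, mul_assoc s⁻¹,
              mul_inv_cancel_left, mul_assoc]
          · exact absurd rfl hb
        exact e _
  have hg : g ∈ Subgroup.closure (Set.range ι ∪ {s}) := by rw [hgen]; trivial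
  induction hg using Subgroup.closure_induction_left with
  | one => exact ⟨1, [], List.isChain_nil, by rw [pr_nil, map_one, one_mul]⟩
  | mul_left x hx y hy ih =>
    rcases hx with ⟨h, rfl⟩ | hx
    · exact hH h _ ih
    · rw [Set.mem_singleton_iff] at hx
      rw [hx]
      exact hS true _ ih
  | inv_mul_cancel x hx y hy ih =>
    rcases hx with ⟨h, rfl⟩ | hx
    · rw [← map_inv]
      exact hH h⁻¹ _ ih
    · rw [Set.mem_singleton_iff] at hx
      rw [hx]
      exact hS false _ ih

end

section

variable {Q : Type v} [Group Q] (z : Q)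

/-- cosets of the cyclic group generated by `z` -/
abbrev Cs : Type v := Quotient (QuotientGroup.rightRel (Subgroup.zpowers z))

/-- the class of `q` -/
def cls (q : Q) : Cs z := Quotient.mk _ q

lemma cls_eq (q q' : Q) : cls z q = cls z q' ↔ q' * q⁻¹ ∈ Subgroup.zpowers z := by
  rw [cls, cls, Quotient.eq]
  exact QuotientGroup.rightRel_apply

lemma cls_mul (q : Q) : cls z (z * q) = cls z q := by
  rw [cls_eq]
  refine ⟨-1, ?_⟩
  simp

lemma mem_of_cls {h q : Q} (hc : cls z (h * q) = cls z q) : h ∈ Subgroup.zpowers z := by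
  rw [cls_eq, mul_inv_rev, mul_inv_cancel_left] at hc
  exact (Subgroup.inv_mem_iff _).mp hc

variable {H : Type v} [Group H] (ψ : H →* Q)

/-- the endpoint -/
def Rv (q : Q) : List (Bool × H) → Q
  | [] => q
  | p :: L => ψ p.2 * Rv q L

/-- the word read along the path -/
def Vw (q : Q) : List (Bool × H) → List (Cs z × Bool)
  | [] => []
  | p :: L => (cls z (Rv ψ q (p :: L)), p.1) :: Vw q L

lemma Vw_reduced (q : Q) (P : H → Prop) :
    ∀ L : List (Bool × H), L.IsChain (fun p q => P p.2 → p.1 = q.1) →
      (∀ p ∈ L, ψ p.2 ∈ Subgroup.zpowers z → P p.2) →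
      FreeGroup.IsReduced (Vw z ψ q L) := by
  intro L
  induction L with
  | nil => intro _ _; exact List.isChain_nil
  | cons p L ih =>
    intro hL hP
    cases L with
    | nil => exact List.isChain_singleton _
    | cons p1 L =>
      have h1 := List.isChain_cons_cons.mp hL
      have h2 := ih h1.2 (fun p hp => hP p (List.mem_cons_of_mem _ hp))
      refine List.isChain_cons_cons.mpr ⟨?_, h2⟩
      intro hc
      simp only at hc ⊢
      apply h1.1
      apply hP p List.mem_cons_self
      exact mem_of_cls z hc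

lemma mk_ne_one {C : Type*} {L : List (C × Bool)} (h : FreeGroup.IsReduced L) (hne : L ≠ []) :
    FreeGroup.mk L ≠ 1 := by
  intro h1
  rw [FreeGroup.one_eq_mk] at h1
  obtain ⟨L', h2, h3⟩ := FreeGroup.Red.exact.mp h1
  have h4 : L' = [] := FreeGroup.Red.nil_iff.mp h3
  subst h4
  exact hne ((h.red_iff_eq.mp h2).symm)

end

end Pool.Agent.N151.RFC
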