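import Mathlib
import Pool.Agent.N151.RFC.HNN

set_option autoImplicit false

namespace Pool.Agent.N151.RFC

universe v

section

variable {H Q : Type v} [Group H] [Group Q]

/-- the permutation action of `H` on `Q × T` through the first factor -/
def Eact (T : Type) (ψ : H →* Q) : H →* Equiv.Perm (Q × T) where
  toFun h := Equiv.prodCongr (Equiv.mulLeft (ψ h)) (Equiv.refl T)
  map_one' := by
    ext ⟨q, t⟩ <;> simp
  map_mul' := by
    intro a b
    ext ⟨q, t⟩ <;> simp [mul_assoc]

lemma Eact_apply (T : Type) (ψ : H →* Q) (h : H) (q : Q) (t : T) :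
    Eact T ψ h (q, t) = (ψ h * q, t) := rfl

omit [Group Q] in
/-- the permutation of `Q × T` moving the second coordinate -/
def Pact {T : Type} [Group T] (x : Q → T) : Equiv.Perm (Q × T) :=
  Equiv.prodShear (Equiv.refl Q) (fun q => Equiv.mulLeft (x q))

omit [Group Q] in
lemma Pact_apply {T : Type} [Group T] (x : Q → T) (q : Q) (t : T) :
    Pact x (q, t) = (q, x q * t) := rfl

omit [Group Q] in
lemma Pact_inv_apply {T : Type} [Group T] (x : Q → T) (q : Q) (t : T) :
    (Pact x)⁻¹ (q, t) = (q, (x q)⁻¹ * t) := by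
  rw [Equiv.Perm.inv_eq_iff_eq, Pact_apply, mul_inv_cancel_left]

lemma Pact_comm {T : Type} [Group T] (x : Q → T) (ψ : H →* Q) (u : H)
    (hx : ∀ q, x (ψ u * q) = x q) :
    Pact x * Eact T ψ u = Eact T ψ u * Pact x := by
  ext1 ⟨q, t⟩
  rw [Equiv.Perm.mul_apply, Equiv.Perm.mul_apply, Eact_apply, Pact_apply, Pact_apply, Eact_apply,
    hx]

end

/-- a finite family of elements outside `⟨u⟩` can be separated simultaneously -/
lemma sep_list {H : Type v} [Group H] (u : H)
    (hsep : ∀ h : H, h ∉ Subgroup.zpowers u →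
      ∃ N : Subgroup H, N.Normal ∧ N.FiniteIndex ∧ ∀ j : ℤ, u ^ (-j) * h ∉ N)
    (L : List (Bool × H)) :
    ∃ N : Subgroup H, N.Normal ∧ N.FiniteIndex ∧
      ∀ p ∈ L, p.2 ∉ Subgroup.zpowers u → ∀ j : ℤ, u ^ (-j) * p.2 ∉ N := by
  induction L with
  | nil => exact ⟨⊤, inferInstance, inferInstance, by simp⟩
  | cons p L ih =>
    obtain ⟨N, hn, hf, hN⟩ := ih
    by_cases hp : p.2 ∈ Subgroup.zpowers u
    · refine ⟨N, hn, hf, ?_⟩
      intro q hq hq2 j
      rcases List.mem_cons.mp hq with rfl | hq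
      · exact absurd hp hq2
      · exact hN q hq hq2 j
    · obtain ⟨N', hn', hf', hN'⟩ := hsep p.2 hp
      refine ⟨N ⊓ N', inferInstance, inferInstance, ?_⟩
      intro q hq hq2 j hmem
      rcases List.mem_cons.mp hq with rfl | hq
      · exact hN' j hmem.2
      · exact hN q hq hq2 j hmem.1

/-- **Residual finiteness of `⟨H, s | [s, u] = 1⟩`.** -/
theorem rf_of_hnn {I H : Type v} [Group I] [Group H] (ι : H →* I) (s : I) (u : H)
    (hgen : Subgroup.closure (Set.range ι ∪ {s}) = ⊤)
    (hcomm : s * ι u = ι u * s)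
    (huniv : ∀ (G : Type v) [Group G] (E : H →* G) (P : G), P * E u = E u * P →
      ∃ Φ : I →* G, (∀ h, Φ (ι h) = E h) ∧ Φ s = P)
    (hRF : Group.ResiduallyFinite H)
    (hsep : ∀ h : H, h ∉ Subgroup.zpowers u →
      ∃ N : Subgroup H, N.Normal ∧ N.FiniteIndex ∧ ∀ j : ℤ, u ^ (-j) * h ∉ N) :
    Group.ResiduallyFinite I := by
  apply Group.residuallyFinite_of_forall_exists_finite_monoidHom.{v}
  intro g hg
  obtain ⟨h0, L, hL, rfl⟩ := exists_red ι s u hgen hcomm g
  by_cases hLn : L = []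
  · subst hLn
    rw [pr_nil, mul_one] at hg
    have hh0 : h0 ≠ 1 := by
      rintro rfl
      exact hg (map_one _)
    obtain ⟨N0, hN0⟩ := Group.exists_finiteIndexNormalSubgroup_notMem _ hh0
    have hn : N0.toSubgroup.Normal := N0.isNormal'
    have hf : N0.toSubgroup.FiniteIndex := N0.isFiniteIndex'
    obtain ⟨Φ, hΦ, -⟩ := huniv (H ⧸ N0.toSubgroup) (QuotientGroup.mk' _) 1
      (by rw [one_mul, mul_one])
    refine ⟨H ⧸ N0.toSubgroup, inferInstance, Subgroup.finite_quotient_of_finiteIndex, Φ, ?_⟩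
    rw [pr_nil, mul_one, hΦ]
    intro h
    exact hN0 ((QuotientGroup.eq_one_iff _).mp h)
  · obtain ⟨N, hn, hf, hN⟩ := sep_list u hsep L
    have hfin : Finite (H ⧸ N) := Subgroup.finite_quotient_of_finiteIndex
    set ψ : H →* H ⧸ N := QuotientGroup.mk' N with hψ
    have hcond : ∀ p ∈ L, ψ p.2 ∈ Subgroup.zpowers (ψ u) → p.2 ∈ Subgroup.zpowers u := by
      intro p hp hmem
      by_contra hc
      obtain ⟨j, hj⟩ := hmem
      change ψ u ^ j = ψ p.2 at hj
      apply hN p hp hc j
      rw [← QuotientGroup.eq_one_iff]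
      change ψ (u ^ (-j) * p.2) = 1
      rw [map_mul, map_zpow, ← hj, ← zpow_add, neg_add_cancel, zpow_zero]
    have hred := Vw_reduced (ψ u) ψ 1 (fun h => h ∈ Subgroup.zpowers u) L hL hcond
    have hne : Vw (ψ u) ψ 1 L ≠ [] := by
      cases L with
      | nil => exact absurd rfl hLn
      | cons p L => simp [Vw]
    obtain ⟨T, _, _, fT, hfT⟩ := free_res _ (mk_ne_one hred hne)
    let x : H ⧸ N → T := fun q => fT (FreeGroup.of (cls (ψ u) q))
    have hx : ∀ q, x (ψ u * q) = x q := by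
      intro q
      simp only [x]
      rw [cls_mul]
    obtain ⟨Φ, hΦ, hΦs⟩ := huniv (Equiv.Perm ((H ⧸ N) × T)) (Eact T ψ) (Pact x)
      (Pact_comm x ψ u hx)
    refine ⟨Equiv.Perm ((H ⧸ N) × T), inferInstance, inferInstance, Φ, ?_⟩
    have hval : ∀ L' : List (Bool × H), Φ (pr ι s L') (1, 1)
        = (Rv ψ 1 L', fT (FreeGroup.mk (Vw (ψ u) ψ 1 L'))) := by
      intro L'
      induction L' with
      | nil =>
        rw [pr_nil, map_one, Equiv.Perm.one_apply]
        show ((1 : H ⧸ N), (1 : T)) = (1, fT (FreeGroup.mk []))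
        rw [← FreeGroup.one_eq_mk, map_one]
      | cons p L' ih =>
        rw [pr_cons, map_mul, map_mul, Equiv.Perm.mul_apply, Equiv.Perm.mul_apply, ih, hΦ,
          Eact_apply]
        rcases p with ⟨b, h⟩
        have e1 : Rv ψ 1 ((b, h) :: L') = ψ h * Rv ψ 1 L' := rfl
        have e2 : FreeGroup.mk (Vw (ψ u) ψ 1 ((b, h) :: L'))
            = (cond b (FreeGroup.of (cls (ψ u) (ψ h * Rv ψ 1 L')))
                (FreeGroup.of (cls (ψ u) (ψ h * Rv ψ 1 L')))⁻¹) *
              FreeGroup.mk (Vw (ψ u) ψ 1 L') := by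
          cases b
          · simp only [cond_false]
            rw [FreeGroup.of, FreeGroup.inv_mk, FreeGroup.mul_mk]
            rfl
          · simp only [cond_true]
            rw [FreeGroup.of, FreeGroup.mul_mk]
            rfl
        rw [e1, e2, map_mul]
        cases b
        · simp only [cond_false]
          rw [map_inv, hΦs, Pact_inv_apply, map_inv]
        · simp only [cond_true]
          rw [hΦs, Pact_apply]
    intro hone
    have h1 := congrArg (fun σ : Equiv.Perm ((H ⧸ N) × T) => (σ (1, 1)).2) hone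
    simp only [map_mul, Equiv.Perm.mul_apply, Equiv.Perm.one_apply] at h1
    rw [hval, hΦ, Eact_apply] at h1
    exact hfT h1

end Pool.Agent.N151.RFC
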