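import Mathlib
import Pool.Agent.N151.RFC.RF

set_option autoImplicit false

namespace Pool.Agent.N151.RFC

universe v

section

variable {Y : Type v} (r : FreeGroup Y) (w : FreeGroup (Option Y))

/-- the relator `[r, s]` -/
def Cc : FreeGroup (Option Y) := Rr r * Ss r w * (Rr r)⁻¹ * (Ss r w)⁻¹

/-- the one-relator group with relator `[r, s]` -/
abbrev II : Type v := PresentedGroup {Cc r w}

/-- the element `s` of `I` -/
abbrev sI : II r w := PresentedGroup.mk _ (Ss r w)

lemma sI_comm : sI r w * PresentedGroup.mk _ (Rr r) = PresentedGroup.mk _ (Rr r) * sI r w := by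
  have h : PresentedGroup.mk {Cc r w} (Cc r w) = 1 :=
    PresentedGroup.one_of_mem (Set.mem_singleton _)
  rw [Cc, _root_.map_mul, _root_.map_mul, _root_.map_mul, _root_.map_inv, _root_.map_inv] at h
  rw [mul_inv_eq_one, mul_inv_eq_iff_eq_mul] at h
  exact h.symm

lemma lift_mk (x : Set (FreeGroup (Option Y))) (g : FreeGroup Y) :
    FreeGroup.lift (fun y => PresentedGroup.mk x (FreeGroup.of (some y))) g
      = PresentedGroup.mk x (Rr g) := by
  have : FreeGroup.lift (fun y => PresentedGroup.mk x (FreeGroup.of (some y)))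
      = (PresentedGroup.mk x).comp (FreeGroup.map some) := by
    ext y
    simp
  exact DFunLike.congr_fun this g

/-- the homomorphism `H → I` -/
lemma exists_iota : ∃ ι : HH r w →* II r w,
    ι (PresentedGroup.of none) = sI r w * PresentedGroup.of none ∧
    (∀ y, ι (PresentedGroup.of (some y)) = PresentedGroup.of (some y)) ∧
    ι (uH r w) = PresentedGroup.mk _ (Rr r) := by
  obtain ⟨ι, h1, h2, h3⟩ := hom_H r w
    (fun y => (PresentedGroup.mk {Cc r w} (FreeGroup.of (some y)) : II r w))
    (sI r w * PresentedGroup.mk _ (la Y)) (by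
      rw [lift_mk]
      have e1 : (sI r w * PresentedGroup.mk _ (la Y))⁻¹ * PresentedGroup.mk {Cc r w} (Rr r)
          * (sI r w * PresentedGroup.mk _ (la Y))
          = PresentedGroup.mk _ ((la Y)⁻¹ * Rr r * la Y) := by
        rw [_root_.map_mul, _root_.map_mul, _root_.map_inv, mul_inv_rev]
        have hc := sI_comm r w
        calc (PresentedGroup.mk {Cc r w} (la Y))⁻¹ * (sI r w)⁻¹ * PresentedGroup.mk {Cc r w} (Rr r)
              * (sI r w * PresentedGroup.mk _ (la Y))
            = (PresentedGroup.mk {Cc r w} (la Y))⁻¹ * (sI r w)⁻¹ *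
              (PresentedGroup.mk {Cc r w} (Rr r) * sI r w) * PresentedGroup.mk _ (la Y) := by group
          _ = (PresentedGroup.mk {Cc r w} (la Y))⁻¹ * (sI r w)⁻¹ *
              (sI r w * PresentedGroup.mk {Cc r w} (Rr r)) * PresentedGroup.mk _ (la Y) := by
                rw [hc]
          _ = _ := by group
      rw [e1, ← map_ev (PresentedGroup.mk {Cc r w})]
      change PresentedGroup.mk {Cc r w} (Ww r w) = _
      rw [← _root_.map_mul, Ss, inv_mul_cancel_right])
  refine ⟨ι, h1, h2, ?_⟩
  rw [h3 r, lift_mk]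

/-- the universal property of `I` as an HNN extension of `H` -/
lemma univ_I (ι : HH r w →* II r w)
    (hι1 : ι (PresentedGroup.of none) = sI r w * PresentedGroup.of none)
    (hι2 : ∀ y, ι (PresentedGroup.of (some y)) = PresentedGroup.of (some y))
    {G : Type*} [Group G] (E : HH r w →* G) (P : G) (hP : P * E (uH r w) = E (uH r w) * P) :
    ∃ Φ : II r w →* G, (∀ h, Φ (ι h) = E h) ∧ Φ (sI r w) = P := by
  let Φ0 : FreeGroup (Option Y) →* G :=
    FreeGroup.lift (fun o : Option Y => o.elim (P⁻¹ * E (PresentedGroup.of none))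
      (fun y => E (PresentedGroup.of (some y))))
  have ha : Φ0 (la Y) = P⁻¹ * E (PresentedGroup.of none) := by simp [Φ0, la]
  have hy : ∀ y, Φ0 (FreeGroup.of (some y)) = E (PresentedGroup.of (some y)) := by
    intro y; simp [Φ0]
  have hR : ∀ g : FreeGroup Y, Φ0 (Rr g) = E (PresentedGroup.mk _ (Rr g)) := by
    intro g
    have : Φ0.comp (FreeGroup.map some) = (E.comp (PresentedGroup.mk _)).comp (FreeGroup.map some) := by
      ext y
      simp only [MonoidHom.comp_apply, FreeGroup.map.of]
      rw [hy]
      rfl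
    exact DFunLike.congr_fun this g
  have hrel : PresentedGroup.mk {Ss r w} (Ww r w) = PresentedGroup.mk {Ss r w} (la Y) := by
    have h : PresentedGroup.mk {Ss r w} (Ss r w) = 1 :=
      PresentedGroup.one_of_mem (Set.mem_singleton _)
    rw [Ss, _root_.map_mul, _root_.map_inv, mul_inv_eq_one] at h
    exact h
  have hW : Φ0 (Ww r w) = E (PresentedGroup.of none) := by
    have h1 : Φ0 (Ww r w) = E (PresentedGroup.mk _ (Ww r w)) := by
      rw [Ww, map_ev, map_ev (PresentedGroup.mk {Ss r w}), map_ev E]
      congr 2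
      · simp only [_root_.map_mul, _root_.map_inv]
        rw [ha, hR, mul_inv_rev, inv_inv]
        change (E (PresentedGroup.of none))⁻¹ * P * E (uH r w) * (P⁻¹ * E (PresentedGroup.of none))
          = (E (PresentedGroup.of none))⁻¹ * E (uH r w) * E (PresentedGroup.of none)
        calc (E (PresentedGroup.of none))⁻¹ * P * E (uH r w) * (P⁻¹ * E (PresentedGroup.of none))
            = (E (PresentedGroup.of none))⁻¹ * (P * E (uH r w)) * P⁻¹ *
              E (PresentedGroup.of none) := by group
          _ = (E (PresentedGroup.of none))⁻¹ * (E (uH r w) * P) * P⁻¹ *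
              E (PresentedGroup.of none) := by rw [hP]
          _ = _ := by group
      · funext y
        rw [hy]
        rfl
    rw [h1, hrel]
    rfl
  have hS : Φ0 (Ss r w) = P := by
    rw [Ss, _root_.map_mul, _root_.map_inv, hW, ha, mul_inv_rev, inv_inv, mul_inv_cancel_left]
  have hC : ∀ x ∈ ({Cc r w} : Set (FreeGroup (Option Y))), Φ0 x = 1 := by
    intro x hx
    rw [Set.mem_singleton_iff] at hx
    subst hx
    rw [Cc, _root_.map_mul, _root_.map_mul, _root_.map_mul, _root_.map_inv, _root_.map_inv, hS,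
      hR r, ← hP, mul_inv_cancel_right, mul_inv_cancel]
  let Φ : II r w →* G := PresentedGroup.toGroup hC
  have hΦ : ∀ g, Φ (PresentedGroup.mk _ g) = Φ0 g := fun g => rfl
  refine ⟨Φ, ?_, ?_⟩
  · have : Φ.comp ι = E := by
      apply PresentedGroup.ext
      intro o
      cases o with
      | none =>
        rw [MonoidHom.comp_apply, hι1, _root_.map_mul]
        change Φ (PresentedGroup.mk _ (Ss r w)) * Φ (PresentedGroup.mk _ (la Y)) = _
        rw [hΦ, hΦ, hS, ha, mul_inv_cancel_left]
      | some y =>
        rw [MonoidHom.comp_apply, hι2]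
        change Φ (PresentedGroup.mk _ (FreeGroup.of (some y))) = _
        rw [hΦ, hy]
    intro h
    exact DFunLike.congr_fun this h
  · change Φ (PresentedGroup.mk _ (Ss r w)) = _
    rw [hΦ, hS]

lemma gen_I (ι : HH r w →* II r w)
    (hι1 : ι (PresentedGroup.of none) = sI r w * PresentedGroup.of none)
    (hι2 : ∀ y, ι (PresentedGroup.of (some y)) = PresentedGroup.of (some y)) :
    Subgroup.closure (Set.range ι ∪ {sI r w}) = ⊤ := by
  rw [eq_top_iff, ← PresentedGroup.closure_range_of, Subgroup.closure_le]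
  rintro x ⟨o, rfl⟩
  cases o with
  | none =>
    have h1 : (PresentedGroup.of none : II r w) = (sI r w)⁻¹ * ι (PresentedGroup.of none) := by
      rw [hι1, inv_mul_cancel_left]
    rw [h1]
    refine Subgroup.mul_mem _ (Subgroup.inv_mem _ (Subgroup.subset_closure (Or.inr rfl)))
      (Subgroup.subset_closure (Or.inl ⟨_, rfl⟩))
  | some y =>
    rw [← hι2 y]
    exact Subgroup.subset_closure (Or.inl ⟨_, rfl⟩)

/-- **Main theorem.** -/
theorem main : Group.ResiduallyFinite (II r w) ↔ Group.ResiduallyFinite (HH r w) := by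
  obtain ⟨ι, hι1, hι2, hι3⟩ := exists_iota r w
  constructor
  · intro hI
    obtain ⟨π, hπ, -⟩ := univ_I r w ι hι1 hι2 (MonoidHom.id (HH r w)) 1
      (by rw [one_mul, mul_one])
    rw [Group.residuallyFinite_iff_forall_finiteIndexNormalSubgroup]
    intro g hg
    have h1 : ι g = 1 := by
      apply Group.eq_one_iff_forall_finiteIndexNormalSubroup
      intro K
      exact hg (K.comap ι)
    have h2 := hπ g
    rw [h1, map_one] at h2
    exact h2.symm
  · intro hH
    refine rf_of_hnn ι (sI r w) (uH r w) (gen_I r w ι hι1 hι2) ?_ ?_ hH (sep r w hH)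
    · rw [hι3]
      exact sI_comm r w
    · intro G _ E P hP
      exact univ_I r w ι hι1 hι2 E P hP

end

end Pool.Agent.N151.RFC
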