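import Mathlib
import Pool.Agent.N151.RFC.Main

set_option autoImplicit false

namespace Pool.Agent.N151.RFC

/-- residual finiteness passes to groups that embed -/
theorem rf_of_injective {G K : Type*} [Group G] [Group K] (f : G →* K)
    (hf : Function.Injective f) (hK : Group.ResiduallyFinite K) : Group.ResiduallyFinite G := by
  rw [Group.residuallyFinite_iff_forall_finiteIndexNormalSubgroup]
  intro g hg
  apply hf
  rw [map_one]
  apply Group.eq_one_iff_forall_finiteIndexNormalSubroup
  intro N
  exact hg (N.comap f)

theorem rf_congr {G K : Type*} [Group G] [Group K] (e : G ≃* K) :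
    Group.ResiduallyFinite G ↔ Group.ResiduallyFinite K :=
  ⟨fun h => rf_of_injective e.symm.toMonoidHom e.symm.injective h,
    fun h => rf_of_injective e.toMonoidHom e.injective h⟩

/-- an isomorphism of free groups induces an isomorphism of one-relator groups -/
noncomputable def oneRelCongr {A B : Type*} (e : FreeGroup A ≃* FreeGroup B) (g : FreeGroup A)
    (h : FreeGroup B) (hgh : e g = h) :
    PresentedGroup ({g} : Set (FreeGroup A)) ≃* PresentedGroup ({h} : Set (FreeGroup B)) :=
  QuotientGroup.congr _ _ e (by
    change Subgroup.map e.toMonoidHom _ = _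
    rw [Subgroup.map_normalClosure _ _ e.surjective, Set.image_singleton]
    change Subgroup.normalClosure {e g} = _
    rw [hgh])

/-- elements of a subgroup generated by `z` and a family `f` are values of words -/
lemma exists_word {Y G : Type*} [Group G] (z : G) (f : Y → G) (x : G)
    (hx : x ∈ Subgroup.closure (insert z (Set.range f))) :
    ∃ w : FreeGroup (Option Y), ev z f w = x := by
  have h : Subgroup.closure (insert z (Set.range f)) ≤ (ev z f).range := by
    rw [Subgroup.closure_le]
    rintro y (rfl | ⟨i, rfl⟩)
    · exact ⟨FreeGroup.of none, ev_none _ _⟩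
    · exact ⟨FreeGroup.of (some i), ev_some _ _ _⟩
  exact h hx

lemma exists_word' {Y G : Type*} [Group G] (f : Y → G) (x : G)
    (hx : x ∈ Subgroup.closure (Set.range f)) :
    ∃ w : FreeGroup Y, FreeGroup.lift f w = x := by
  have h : Subgroup.closure (Set.range f) ≤ (FreeGroup.lift f).range := by
    rw [Subgroup.closure_le]
    rintro y ⟨i, rfl⟩
    exact ⟨FreeGroup.of i, FreeGroup.lift_apply_of⟩
  exact h hx

/-- **Main theorem, basis form.** -/
theorem main_basis {X Y : Type*} (b : FreeGroupBasis (Option Y) (FreeGroup X))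
    (r s : FreeGroup X)
    (hr : r ∈ Subgroup.closure (Set.range fun y : Y => b (some y)))
    (hs : s * b none ∈ Subgroup.closure
      (insert ((b none)⁻¹ * r * b none) (Set.range fun y : Y => b (some y)))) :
    Group.ResiduallyFinite (PresentedGroup ({r * s * r⁻¹ * s⁻¹} : Set (FreeGroup X))) ↔
      Group.ResiduallyFinite (PresentedGroup ({s} : Set (FreeGroup X))) := by
  obtain ⟨r0, hr0⟩ := exists_word' _ _ hr
  obtain ⟨w, hw⟩ := exists_word _ _ _ hs
  let e : FreeGroup (Option Y) ≃* FreeGroup X := b.repr.symm
  have he : ∀ o, e (FreeGroup.of o) = b o := fun o => rfl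
  have e1 : e (Rr r0) = r := by
    rw [← hr0]
    have : e.toMonoidHom.comp (FreeGroup.map some) = FreeGroup.lift fun y : Y => b (some y) := by
      ext y
      simp [he]
    exact DFunLike.congr_fun this r0
  have e2 : e (Ss r0 w) = s := by
    have h1 : e (Ww r0 w) = s * b none := by
      rw [← hw]
      change e.toMonoidHom (Ww r0 w) = _
      rw [Ww, map_ev]
      congr 2
      change e ((la Y)⁻¹ * Rr r0 * la Y) = _
      rw [map_mul, map_mul, map_inv, e1]
      rfl
    rw [Ss, map_mul, map_inv, h1, he, mul_inv_cancel_right]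
  have e3 : e (Cc r0 w) = r * s * r⁻¹ * s⁻¹ := by
    rw [Cc, map_mul, map_mul, map_mul, map_inv, map_inv, e1, e2]
  rw [← rf_congr (oneRelCongr e _ _ e3), ← rf_congr (oneRelCongr e _ _ e2)]
  exact main r0 w

end Pool.Agent.N151.RFC
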