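import Mathlib
import Pool.Agent.N151.RFC.Transport

set_option autoImplicit false

/-! Pairs `(p, q)` generating the same subgroup as `(r, s)`. -/

namespace Pool.Agent.N151.RFC

universe v

/-- commutation passes to the generated subgroup -/
lemma comm_of_closure {F K : Type*} [Group F] [Group K] (p q r s : F)
    (h : Subgroup.closure {p, q} = Subgroup.closure {r, s}) (φ : F →* K)
    (hc : Commute (φ p) (φ q)) : Commute (φ r) (φ s) := by
  have key : ∀ x ∈ Subgroup.closure {p, q}, φ x * φ p = φ p * φ x ∧ φ x * φ q = φ q * φ x := by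
    intro x hx
    have hle : Subgroup.closure {p, q} ≤ (Subgroup.centralizer {φ p, φ q}).comap φ := by
      rw [Subgroup.closure_le]
      rintro y (rfl | rfl)
      · rw [SetLike.mem_coe, Subgroup.mem_comap, Subgroup.mem_centralizer_iff]
        rintro z (rfl | rfl)
        · rfl
        · exact hc.eq.symm
      · rw [SetLike.mem_coe, Subgroup.mem_comap, Subgroup.mem_centralizer_iff]
        rintro z (rfl | rfl)
        · exact hc.eq
        · rfl
    have h1 := hle hx
    rw [Subgroup.mem_comap, Subgroup.mem_centralizer_iff] at h1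
    exact ⟨(h1 _ (Set.mem_insert _ _)).symm,
      (h1 _ (Set.mem_insert_of_mem _ (Set.mem_singleton _))).symm⟩
  have hr : r ∈ Subgroup.closure {p, q} := by
    rw [h]; exact Subgroup.subset_closure (Set.mem_insert _ _)
  have hs : s ∈ Subgroup.closure {p, q} := by
    rw [h]; exact Subgroup.subset_closure (Set.mem_insert_of_mem _ (Set.mem_singleton _))
  have hle : Subgroup.closure {p, q} ≤ (Subgroup.centralizer {φ r}).comap φ := by
    rw [Subgroup.closure_le]
    rintro y (rfl | rfl)
    · rw [SetLike.mem_coe, Subgroup.mem_comap, Subgroup.mem_centralizer_iff]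
      rintro z rfl
      exact (key r hr).1
    · rw [SetLike.mem_coe, Subgroup.mem_comap, Subgroup.mem_centralizer_iff]
      rintro z rfl
      exact (key r hr).2
  have h2 := hle hs
  rw [Subgroup.mem_comap, Subgroup.mem_centralizer_iff] at h2
  exact h2 _ (Set.mem_singleton _)

/-- the commutator -/
abbrev cm {F : Type*} [Group F] (r s : F) : F := r * s * r⁻¹ * s⁻¹

lemma map_cm_eq_one {F K : Type*} [Group F] [Group K] (r s : F) (φ : F →* K) :
    φ (cm r s) = 1 ↔ Commute (φ r) (φ s) := by
  rw [cm, _root_.map_mul, _root_.map_mul, _root_.map_mul, _root_.map_inv, _root_.map_inv,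
    mul_inv_eq_one, mul_inv_eq_iff_eq_mul]
  exact Iff.rfl

/-- pairs generating the same subgroup have commutators with the same normal closure -/
lemma normalClosure_cm {F : Type*} [Group F] (p q r s : F)
    (h : Subgroup.closure {p, q} = Subgroup.closure {r, s}) :
    Subgroup.normalClosure {cm r s} ≤ Subgroup.normalClosure {cm p q} := by
  apply Subgroup.normalClosure_le_normal
  rintro x rfl
  rw [SetLike.mem_coe, ← QuotientGroup.eq_one_iff]
  change QuotientGroup.mk' (Subgroup.normalClosure {cm p q}) (cm r s) = 1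
  rw [map_cm_eq_one]
  apply comm_of_closure p q r s h
  rw [← map_cm_eq_one]
  change ((cm p q : F) : F ⧸ Subgroup.normalClosure {cm p q}) = 1
  rw [QuotientGroup.eq_one_iff]
  exact Subgroup.subset_normalClosure (Set.mem_singleton _)

/-- exponents -/
lemma exists_exps {F K : Type*} [Group F] [Group K] (r s : F) (φ : F →* K)
    (hc : Commute (φ r) (φ s)) (x : F) (hx : x ∈ Subgroup.closure {r, s}) :
    ∃ i j : ℤ, φ x = φ r ^ i * φ s ^ j := by
  induction hx using Subgroup.closure_induction with
  | mem y hy =>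
    rcases hy with rfl | rfl
    · exact ⟨1, 0, by simp⟩
    · exact ⟨0, 1, by simp⟩
  | one => exact ⟨0, 0, by simp⟩
  | mul y z _ _ hy hz =>
    obtain ⟨i, j, h1⟩ := hy
    obtain ⟨k, l, h2⟩ := hz
    refine ⟨i + k, j + l, ?_⟩
    rw [_root_.map_mul, h1, h2, zpow_add, zpow_add]
    have h3 : Commute (φ s ^ j) (φ r ^ k) := (hc.symm.zpow_zpow j k)
    calc φ r ^ i * φ s ^ j * (φ r ^ k * φ s ^ l)
        = φ r ^ i * (φ s ^ j * φ r ^ k) * φ s ^ l := by group
      _ = φ r ^ i * (φ r ^ k * φ s ^ j) * φ s ^ l := by rw [h3.eq]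
      _ = _ := by group
  | inv y _ hy =>
    obtain ⟨i, j, h1⟩ := hy
    refine ⟨-i, -j, ?_⟩
    rw [_root_.map_inv, h1, mul_inv_rev, ← zpow_neg, ← zpow_neg]
    exact (hc.symm.zpow_zpow (-j) (-i)).eq

/-- adjoining roots: the permutation `T` -/
def rootP {H : Type v} [Group H] (n : ℕ) (u : H) : Equiv.Perm (H × ZMod n) where
  toFun x := (if x.2 = 0 then u * x.1 else x.1, x.2 + 1)
  invFun x := (if x.2 = 1 then u⁻¹ * x.1 else x.1, x.2 - 1)
  left_inv := by
    rintro ⟨h, c⟩
    by_cases hc : c = 0
    · subst hc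
      simp
    · have : ¬ (c + 1 = 1) := by
        intro h; apply hc; simpa using h
      simp [hc]
  right_inv := by
    rintro ⟨h, c⟩
    by_cases hc : c = 1
    · subst hc
      simp
    · have : ¬ (c - 1 = 0) := by
        intro h; apply hc; exact sub_eq_zero.mp h
      simp [hc, this]

/-- the diagonal action -/
def diagP {H : Type v} [Group H] (n : ℕ) : H →* Equiv.Perm (H × ZMod n) where
  toFun h := Equiv.prodCongr (Equiv.mulLeft h) (Equiv.refl _)
  map_one' := by
    ext ⟨q, t⟩ <;> simp
  map_mul' := by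
    intro a b
    ext ⟨q, t⟩ <;> simp [mul_assoc]

lemma diagP_apply {H : Type v} [Group H] (n : ℕ) (g h : H) (c : ZMod n) :
    diagP n g (h, c) = (g * h, c) := rfl

lemma diagP_injective {H : Type v} [Group H] (n : ℕ) : Function.Injective (diagP (H := H) n) := by
  intro g g' h
  have h1 := congrArg (fun σ : Equiv.Perm (H × ZMod n) => (σ (1, 0)).1) h
  simpa [diagP_apply] using h1

lemma rootP_pow_zero {H : Type v} [Group H] (n : ℕ) (u h : H) (k : ℕ) (hk : k + 1 ≤ n) :
    (rootP n u ^ (k + 1)) (h, 0) = (u * h, ((k + 1 : ℕ) : ZMod n)) := by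
  induction k with
  | zero =>
    rw [zero_add, pow_one]
    simp [rootP]
  | succ k ih =>
    rw [pow_succ', Equiv.Perm.mul_apply, ih (by omega)]
    have h0 : ((k + 1 : ℕ) : ZMod n) ≠ 0 := by
      intro h
      rw [ZMod.natCast_eq_zero_iff] at h
      exact absurd (Nat.le_of_dvd (by omega) h) (by omega)
    change (if ((k + 1 : ℕ) : ZMod n) = 0 then _ else _, _) = _
    rw [if_neg h0]
    push_cast
    rfl

lemma rootP_pow {H : Type v} [Group H] (n : ℕ) [NeZero n] (u : H) :
    rootP n u ^ n = diagP n u := by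
  have hn : n ≠ 0 := NeZero.ne n
  obtain ⟨m, hm⟩ : ∃ m, n = m + 1 := ⟨n - 1, by omega⟩
  have h0 : ∀ h : H, (rootP n u ^ n) (h, 0) = (u * h, 0) := by
    intro h
    have := rootP_pow_zero n u h m (by omega)
    rw [← hm] at this
    rw [this, ZMod.natCast_self]
  ext1 ⟨h, c⟩
  rw [diagP_apply]
  by_cases hc : c = 0
  · subst hc
    exact h0 h
  · obtain ⟨k, hk⟩ : ∃ k, c.val = k + 1 := by
      refine ⟨c.val - 1, ?_⟩
      have : c.val ≠ 0 := by
        intro h
        exact hc ((ZMod.val_eq_zero c).mp h)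
      omega
    have hlt : c.val < n := ZMod.val_lt c
    have hcast : ((k + 1 : ℕ) : ZMod n) = c := by
      rw [← hk, ZMod.natCast_val, ZMod.cast_id]
    have h1 : (h, c) = (rootP n u ^ (k + 1)) (u⁻¹ * h, 0) := by
      rw [rootP_pow_zero n u _ k (by omega), hcast, mul_inv_cancel_left]
    rw [h1, ← Equiv.Perm.mul_apply, ← pow_add, add_comm, pow_add, Equiv.Perm.mul_apply, h0,
      rootP_pow_zero n u _ k (by omega), hcast, mul_inv_cancel_left]

/-- every element has a `j`-th root in an overgroup, for every nonzero integer `j` -/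
lemma exists_root {H : Type v} [Group H] (u : H) (j : ℤ) (hj : j ≠ 0) :
    ∃ (K : Type v) (_ : Group K) (E : H →* K) (t : K), Function.Injective E ∧ t ^ j = E u := by
  have : NeZero j.natAbs := ⟨Int.natAbs_ne_zero.mpr hj⟩
  refine ⟨Equiv.Perm (H × ZMod j.natAbs), inferInstance, diagP j.natAbs,
    rootP j.natAbs u ^ (Int.sign j), diagP_injective _, ?_⟩
  rw [← zpow_mul, Int.sign_mul_self_eq_natAbs, zpow_natCast, rootP_pow]

section

variable {Y : Type v} (r : FreeGroup Y) (w : FreeGroup (Option Y))

/-- `H` embeds in `⟨X | p⟩` when `p = r ^ i * s ^ j` modulo `[r, s]` with `j ≠ 0` -/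
lemma rf_of_pair (p : FreeGroup (Option Y)) (i j : ℤ) (hj : j ≠ 0)
    (hp : (PresentedGroup.mk {Cc r w} p : II r w)
      = PresentedGroup.mk _ (Rr r) ^ i * PresentedGroup.mk _ (Ss r w) ^ j)
    (hC : PresentedGroup.mk {p} (Cc r w) = 1)
    (hRF : Group.ResiduallyFinite (PresentedGroup {p})) :
    Group.ResiduallyFinite (HH r w) := by
  obtain ⟨ι, hι1, hι2, hι3⟩ := exists_iota r w
  have hle : Subgroup.normalClosure {Cc r w} ≤ Subgroup.normalClosure {p} := by
    apply Subgroup.normalClosure_le_normal
    rintro x rfl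
    exact (QuotientGroup.eq_one_iff _).mp hC
  let π : II r w →* PresentedGroup {p} :=
    QuotientGroup.map _ _ (MonoidHom.id _) hle
  apply rf_of_injective (π.comp ι) _ hRF
  rw [injective_iff_map_eq_one]
  intro h hh
  obtain ⟨K, _, E, t, hE, ht⟩ := exists_root (uH r w) j hj
  obtain ⟨Φ, hΦ, hΦs⟩ := univ_I r w ι hι1 hι2 E (t ^ (-i)) (by
    rw [← ht]
    exact ((Commute.refl t).zpow_zpow (-i) j).eq)
  have hkill : Φ (PresentedGroup.mk {Cc r w} p) = 1 := by
    rw [hp, _root_.map_mul, map_zpow, map_zpow]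
    have e1 : Φ (PresentedGroup.mk {Cc r w} (Rr r)) = t ^ j := by
      rw [← hι3, hΦ, ht]
    have e2 : Φ (PresentedGroup.mk {Cc r w} (Ss r w)) = t ^ (-i) := hΦs
    rw [e1, e2, ← zpow_mul, ← zpow_mul, ← zpow_add]
    have : j * i + -i * j = 0 := by ring
    rw [this, zpow_zero]
  have hle2 : Subgroup.normalClosure {p} ≤ (Φ.comp (PresentedGroup.mk {Cc r w})).ker := by
    apply Subgroup.normalClosure_le_normal
    rintro x rfl
    exact hkill
  let Ψ : PresentedGroup {p} →* K :=
    QuotientGroup.lift _ (Φ.comp (PresentedGroup.mk {Cc r w})) hle2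
  have hΨ : ∀ x : II r w, Ψ (π x) = Φ x := by
    intro x
    obtain ⟨y, rfl⟩ := QuotientGroup.mk_surjective x
    rfl
  apply hE
  rw [map_one, ← hΦ, ← hΨ]
  change Ψ ((π.comp ι) h) = 1
  rw [hh, map_one]

/-- the exponent sum of `a` -/
lemma exists_expo : ∃ φ : FreeGroup (Option Y) →* Multiplicative ℤ,
    φ (Rr r) = 1 ∧ φ (Ss r w) ≠ 1 := by
  refine ⟨ev (Multiplicative.ofAdd 1) (fun _ => 1), ?_, ?_⟩
  · rw [ev_map]
    have : FreeGroup.lift (fun _ : Y => (1 : Multiplicative ℤ)) = 1 := by
      ext y
      simp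
    rw [this, MonoidHom.one_apply]
  · have h1 : ev (Multiplicative.ofAdd (1 : ℤ)) (fun _ : Y => 1) (Rr r) = 1 := by
      rw [ev_map]
      have : FreeGroup.lift (fun _ : Y => (1 : Multiplicative ℤ)) = 1 := by
        ext y
        simp
      rw [this, MonoidHom.one_apply]
    rw [Ss, _root_.map_mul, _root_.map_inv, Ww, map_ev, _root_.map_mul, _root_.map_mul,
      _root_.map_inv, h1, mul_one, inv_mul_cancel]
    have h2 : (ev (1 : Multiplicative ℤ)
        (fun y : Y => ev (Multiplicative.ofAdd (1 : ℤ)) (fun _ : Y => 1) (FreeGroup.of (some y)))) w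
        = 1 := by
      have : (ev (1 : Multiplicative ℤ)
        (fun y : Y => ev (Multiplicative.ofAdd (1 : ℤ)) (fun _ : Y => 1) (FreeGroup.of (some y))))
        = 1 := by
        ext o
        cases o with
        | none => simp
        | some y => simp
      rw [this, MonoidHom.one_apply]
    rw [h2, ev_none, one_mul]
    decide

/-- **Pairs generating the same subgroup.** -/
theorem main_pairs (p q : FreeGroup (Option Y))
    (hpq : Subgroup.closure {p, q} = Subgroup.closure {Rr r, Ss r w})
    (hG : Group.ResiduallyFinite (PresentedGroup {p}))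
    (hH : Group.ResiduallyFinite (PresentedGroup {q})) :
    Group.ResiduallyFinite (HH r w) := by
  have hpm : p ∈ Subgroup.closure {Rr r, Ss r w} := by
    rw [← hpq]; exact Subgroup.subset_closure (Set.mem_insert _ _)
  have hqm : q ∈ Subgroup.closure {Rr r, Ss r w} := by
    rw [← hpq]; exact Subgroup.subset_closure (Set.mem_insert_of_mem _ (Set.mem_singleton _))
  have hcI : Commute (PresentedGroup.mk {Cc r w} (Rr r)) (PresentedGroup.mk {Cc r w} (Ss r w)) :=
    (sI_comm r w).symm
  obtain ⟨i, j, hij⟩ := exists_exps (Rr r) (Ss r w) (PresentedGroup.mk {Cc r w}) hcI p hpm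
  obtain ⟨k, l, hkl⟩ := exists_exps (Rr r) (Ss r w) (PresentedGroup.mk {Cc r w}) hcI q hqm
  have hp1 : PresentedGroup.mk {p} p = 1 := PresentedGroup.one_of_mem (Set.mem_singleton _)
  have hq1 : PresentedGroup.mk {q} q = 1 := PresentedGroup.one_of_mem (Set.mem_singleton _)
  have hCp : PresentedGroup.mk {p} (Cc r w) = 1 := by
    change PresentedGroup.mk {p} (cm (Rr r) (Ss r w)) = 1
    rw [map_cm_eq_one]
    apply comm_of_closure p q _ _ hpq
    rw [hp1]
    exact Commute.one_left _
  have hCq : PresentedGroup.mk {q} (Cc r w) = 1 := by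
    change PresentedGroup.mk {q} (cm (Rr r) (Ss r w)) = 1
    rw [map_cm_eq_one]
    apply comm_of_closure p q _ _ hpq
    rw [hq1]
    exact Commute.one_right _
  by_cases hj : j = 0
  · by_cases hl : l = 0
    · exfalso
      subst hj hl
      obtain ⟨φ, hφ1, hφ2⟩ := exists_expo r w
      -- the exponent sum factors through `I`
      have hker : Subgroup.normalClosure {Cc r w} ≤ φ.ker := by
        apply Subgroup.normalClosure_le_normal
        rintro x rfl
        change φ (cm (Rr r) (Ss r w)) = 1
        rw [map_cm_eq_one]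
        exact Commute.all _ _
      let φ' : II r w →* Multiplicative ℤ := QuotientGroup.lift _ φ hker
      have hφ' : ∀ x, φ' (PresentedGroup.mk _ x) = φ x := fun x => rfl
      have hp0 : φ p = 1 := by
        rw [← hφ', hij, _root_.map_mul, map_zpow, map_zpow, hφ', hφ', hφ1]
        simp
      have hq0 : φ q = 1 := by
        rw [← hφ', hkl, _root_.map_mul, map_zpow, map_zpow, hφ', hφ', hφ1]
        simp
      have hle : Subgroup.closure {p, q} ≤ φ.ker := by
        rw [Subgroup.closure_le]
        rintro x (rfl | rfl)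
        · exact hp0
        · exact hq0
      apply hφ2
      apply hle
      rw [hpq]
      exact Subgroup.subset_closure (Set.mem_insert_of_mem _ (Set.mem_singleton _))
    · exact rf_of_pair r w q k l hl hkl hCq hH
  · exact rf_of_pair r w p i j hj hij hCp hG

end

/-- **Main theorem, basis form, for pairs generating the same subgroup.** -/
theorem main_basis_pairs {X Y : Type*} (b : FreeGroupBasis (Option Y) (FreeGroup X))
    (r s : FreeGroup X)
    (hr : r ∈ Subgroup.closure (Set.range fun y : Y => b (some y)))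
    (hs : s * b none ∈ Subgroup.closure
      (insert ((b none)⁻¹ * r * b none) (Set.range fun y : Y => b (some y))))
    (p q : FreeGroup X) (hpq : Subgroup.closure {p, q} = Subgroup.closure {r, s}) :
    (Group.ResiduallyFinite (PresentedGroup ({p} : Set (FreeGroup X))) →
      Group.ResiduallyFinite (PresentedGroup ({q} : Set (FreeGroup X))) →
      Group.ResiduallyFinite (PresentedGroup ({p * q * p⁻¹ * q⁻¹} : Set (FreeGroup X)))) ∧
    (Group.ResiduallyFinite (PresentedGroup ({p * q * p⁻¹ * q⁻¹} : Set (FreeGroup X))) ↔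
      Group.ResiduallyFinite (PresentedGroup ({s} : Set (FreeGroup X)))) := by
  have hI : Group.ResiduallyFinite (PresentedGroup ({p * q * p⁻¹ * q⁻¹} : Set (FreeGroup X))) ↔
      Group.ResiduallyFinite (PresentedGroup ({r * s * r⁻¹ * s⁻¹} : Set (FreeGroup X))) := by
    have h1 : Subgroup.normalClosure {p * q * p⁻¹ * q⁻¹}
        = Subgroup.normalClosure {r * s * r⁻¹ * s⁻¹} :=
      le_antisymm (normalClosure_cm r s p q hpq.symm) (normalClosure_cm p q r s hpq)
    exact rf_congr (QuotientGroup.quotientMulEquivOfEq h1)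
  have hmain := main_basis b r s hr hs
  refine ⟨?_, hI.trans hmain⟩
  intro hG hH
  rw [hI, hmain]
  obtain ⟨r0, hr0⟩ := exists_word' _ _ hr
  obtain ⟨w, hw⟩ := exists_word _ _ _ hs
  let e : FreeGroup (Option Y) ≃* FreeGroup X := b.repr.symm
  have he : ∀ o, e (FreeGroup.of o) = b o := fun o => rfl
  have e1 : e (Rr r0) = r := by
    rw [← hr0]
    have : e.toMonoidHom.comp (FreeGroup.map some) = FreeGroup.lift fun y : Y => b (some y) := by
      ext y
      simp [he]
    exact DFunLike.congr_fun this r0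
  have e2 : e (Ss r0 w) = s := by
    have h1 : e (Ww r0 w) = s * b none := by
      rw [← hw]
      change e.toMonoidHom (Ww r0 w) = _
      rw [Ww, map_ev]
      congr 2
      change e ((la Y)⁻¹ * Rr r0 * la Y) = _
      rw [_root_.map_mul, _root_.map_mul, _root_.map_inv, e1]
      rfl
    rw [Ss, _root_.map_mul, _root_.map_inv, h1, he, mul_inv_cancel_right]
  rw [← rf_congr (oneRelCongr e _ _ e2)]
  refine main_pairs r0 w (e.symm p) (e.symm q) ?_ ?_ ?_
  · have h2 := congrArg (Subgroup.map e.symm.toMonoidHom) hpq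
    rw [MonoidHom.map_closure, MonoidHom.map_closure, Set.image_pair, Set.image_pair] at h2
    have h3 : e.symm.toMonoidHom r = Rr r0 := by
      change e.symm r = _
      rw [← e1, MulEquiv.symm_apply_apply]
    have h4 : e.symm.toMonoidHom s = Ss r0 w := by
      change e.symm s = _
      rw [← e2, MulEquiv.symm_apply_apply]
    rw [h3, h4] at h2
    exact h2
  · rw [rf_congr (oneRelCongr e (e.symm p) p (e.apply_symm_apply p))]
    exact hG
  · rw [rf_congr (oneRelCongr e (e.symm q) q (e.apply_symm_apply q))]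
    exact hH

end Pool.Agent.N151.RFC
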